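import Mathlib

/-! Classes of finite soluble groups: Schunck classes, projectors, the lattice of Schunck classes,
and classes defined by forbidden epimorphic images. -/

set_option autoImplicit false

namespace Pool.Agent.H347R3.Sch

/-- A class of groups: a predicate on (small) groups. -/
abbrev GroupClass := (G : Type) → [Group G] → Prop

/-- A group is primitive if it has a maximal subgroup with trivial core. -/
def IsPrim (G : Type) [Group G] : Prop := ∃ M : Subgroup G, IsCoatom M ∧ M.normalCore = ⊥

/-- `X` is a Schunck class of finite soluble groups: it is closed under isomorphism and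
epimorphic images, and contains every finite soluble group all of whose primitive epimorphic images
lie in `X`. -/
structure IsSchunck (X : GroupClass) : Prop where
  soluble : ∀ (G : Type) [Group G], X G → Finite G ∧ Group.IsSolvable G
  iso : ∀ (G H : Type) [Group G] [Group H], Nonempty (G ≃* H) → X G → X H
  quot : ∀ (G : Type) [Group G] (N : Subgroup G) [N.Normal], X G → X (G ⧸ N)
  prim : ∀ (G : Type) [Group G] [Finite G], Group.IsSolvable G →
    (∀ (N : Subgroup G) [N.Normal], IsPrim (G ⧸ N) → X (G ⧸ N)) → X G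

/-- The class product `XY`: finite soluble groups `G` with a normal subgroup `N` in `X` such that
`G/N` is in `Y`. -/
def prodClass (X Y : GroupClass) : GroupClass := fun G _ =>
  Finite G ∧ Group.IsSolvable G ∧ ∃ (N : Subgroup G) (_ : N.Normal), X N ∧ Y (G ⧸ N)

/-- `H` is a maximal `X`-subgroup of `G`. -/
def IsMaxSub (X : GroupClass) {G : Type} [Group G] (H : Subgroup G) : Prop :=
  X H ∧ ∀ K : Subgroup G, H ≤ K → X K → K = H

/-- `H` is an `X`-projector of `G`: for every normal subgroup `N` of `G` the image `HN/N` is a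
maximal `X`-subgroup of `G/N`. -/
def IsProj (X : GroupClass) {G : Type} [Group G] (H : Subgroup G) : Prop :=
  ∀ (N : Subgroup G) [N.Normal], IsMaxSub X (H.map (QuotientGroup.mk' N))

/-- Strong containment `X ≪ Y`: in every finite soluble group some `X`-projector lies inside some
`Y`-projector. -/
def StrongLE (X Y : GroupClass) : Prop :=
  ∀ (G : Type) [Group G] [Finite G], Group.IsSolvable G →
    ∃ S T : Subgroup G, IsProj X S ∧ IsProj Y T ∧ S ≤ T

/-- The class `⟨Y : Y ∈ F⟩`: finite soluble groups `G` such that, whenever `S Y` is a `Y`-projector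
of `G` for every `Y` in the family `F`, the group `G` is generated by the subgroups `S Y`. -/
def gen (F : Set GroupClass) : GroupClass := fun G _ =>
  Finite G ∧ Group.IsSolvable G ∧ ∀ S : GroupClass → Subgroup G,
    (∀ Y ∈ F, IsProj Y (S Y)) → (⨆ Y ∈ F, S Y) = ⊤

/-- The join `X ∨ Y = ⟨X, Y⟩`. -/
def joinC (X Y : GroupClass) : GroupClass := gen {X, Y}

/-- The meet `X ∧ Y = ⟨U : U ≪ X, U ≪ Y⟩`, `U` ranging over the Schunck classes. -/
def meetC (X Y : GroupClass) : GroupClass :=
  gen {U | IsSchunck U ∧ StrongLE U X ∧ StrongLE U Y}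

/-- A family of classes is closed under the lattice operations. -/
def IsSublat (F : Set GroupClass) : Prop :=
  ∀ X ∈ F, ∀ Y ∈ F, joinC X Y ∈ F ∧ meetC X Y ∈ F

/-- The family of the Schunck classes `X` with `X^2 = X`. -/
def SqFam : Set GroupClass :=
  {X | IsSchunck X ∧ ∀ (G : Type) [Group G], prodClass X X G ↔ X G}

/-! ### Classes given by forbidden epimorphic images -/

/-- The class of finite soluble groups without epimorphic images in `b`. -/
def cls (b : GroupClass) : GroupClass := fun R _ =>
  Finite R ∧ Group.IsSolvable R ∧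
    ∀ (Q : Type) [Group Q], b Q → ∀ f : R →* Q, ¬ Function.Surjective f

lemma cls_of_surj {b : GroupClass} {R S : Type} [Group R] [Group S] (g : R →* S)
    (hg : Function.Surjective g) (h : cls b R) : cls b S := by
  obtain ⟨h1, h2, h3⟩ := h
  refine ⟨Finite.of_surjective g hg, Group.isSolvable_of_surjective hg, ?_⟩
  intro Q _ hQ f hf
  exact h3 Q hQ (f.comp g) (hf.comp hg)

lemma isPrim_transport {A B : Type} [Group A] [Group B] (e : A ≃* B) (h : IsPrim A) :
    IsPrim B := by
  obtain ⟨M, hM, hc⟩ := h
  refine ⟨M.map e.toMonoidHom, ?_, ?_⟩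
  · have := (OrderIso.isCoatom_iff (e.mapSubgroup) M).mpr hM
    exact this
  · rw [eq_bot_iff]
    intro x hx
    have h1 : e.symm x ∈ M.normalCore := by
      intro b
      have h2 := hx (e b)
      obtain ⟨m, hm, hm2⟩ := h2
      have h3 : b * e.symm x * b⁻¹ = m := by
        apply e.injective
        rw [map_mul, map_mul, map_inv, e.apply_symm_apply]
        exact hm2.symm
      rw [h3]; exact hm
    rw [hc, Subgroup.mem_bot] at h1
    rw [Subgroup.mem_bot]
    have := congrArg e h1
    rwa [e.apply_symm_apply, map_one] at this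

lemma isSchunck_cls {b : GroupClass} (hb : ∀ (Q : Type) [Group Q], b Q → IsPrim Q) :
    IsSchunck (cls b) where
  soluble := fun G _ h => ⟨h.1, h.2.1⟩
  iso := fun G H _ _ ⟨e⟩ h => cls_of_surj e.toMonoidHom e.surjective h
  quot := fun G _ N _ h => cls_of_surj (QuotientGroup.mk' N) (QuotientGroup.mk'_surjective N) h
  prim := by
    intro G _ _ hs hall
    refine ⟨inferInstance, hs, ?_⟩
    intro Q _ hQ f hf
    let e := QuotientGroup.quotientKerEquivOfSurjective f hf
    have h1 : IsPrim (G ⧸ f.ker) := isPrim_transport e.symm (hb Q hQ)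
    have h2 := hall f.ker h1
    exact h2.2.2 Q hQ e.toMonoidHom e.surjective

/-- descend an epimorphism to a quotient -/
lemma descend {R Q : Type} [Group R] [Group Q] (N : Subgroup R) [N.Normal] (f : R →* Q)
    (hf : Function.Surjective f) (h : N.map f = ⊥) :
    ∃ g : R ⧸ N →* Q, Function.Surjective g := by
  have hk : N ≤ f.ker := by
    intro x hx
    rw [MonoidHom.mem_ker, ← Subgroup.mem_bot, ← h]
    exact ⟨x, hx, rfl⟩
  refine ⟨QuotientGroup.lift N f hk, ?_⟩
  intro z
  obtain ⟨x, rfl⟩ := hf z
  exact ⟨(x : R ⧸ N), rfl⟩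

/-- If every nontrivial normal subgroup of a member of `b` has an epimorphic image in `b`, then
the class is closed under extensions. -/
lemma cls_ext {b : GroupClass}
    (hb : ∀ (Q : Type) [Group Q], b Q → ∀ K : Subgroup Q, K.Normal → K ≠ ⊥ →
      ∃ (P : Type) (_ : Group P), b P ∧ ∃ f : K →* P, Function.Surjective f)
    {R : Type} [Group R] (h : prodClass (cls b) (cls b) R) : cls b R := by
  obtain ⟨h1, h2, N, hNn, hN, hQ⟩ := h
  refine ⟨h1, h2, ?_⟩
  intro Q _ hbQ f hf
  by_cases h3 : N.map f = ⊥
  · obtain ⟨g, hg⟩ := descend N f hf h3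
    exact hQ.2.2 Q hbQ g hg
  · obtain ⟨P, _, hP, g, hg⟩ := hb Q hbQ (N.map f) (hNn.map f hf) h3
    let r : N →* (N.map f) := f.subgroupMap N
    have hr : Function.Surjective r := f.subgroupMap_surjective N
    exact hN.2.2 P hP (g.comp r) (hg.comp hr)

lemma cls_trivial {b : GroupClass} (hb : ∀ (Q : Type) [Group Q], b Q → IsPrim Q)
    {R : Type} [Group R] [Subsingleton R] : cls b R := by
  refine ⟨inferInstance, inferInstance, ?_⟩
  intro Q _ hQ f hf
  obtain ⟨M, hM, -⟩ := hb Q hQ
  apply hM.1
  rw [eq_top_iff]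
  intro x _
  obtain ⟨y, rfl⟩ := hf x
  rw [Subsingleton.elim y 1, map_one]
  exact M.one_mem

lemma cls_mem_SqFam {b : GroupClass} (hp : ∀ (Q : Type) [Group Q], b Q → IsPrim Q)
    (hb : ∀ (Q : Type) [Group Q], b Q → ∀ K : Subgroup Q, K.Normal → K ≠ ⊥ →
      ∃ (P : Type) (_ : Group P), b P ∧ ∃ f : K →* P, Function.Surjective f) :
    cls b ∈ SqFam := by
  refine ⟨isSchunck_cls hp, ?_⟩
  intro G _
  constructor
  · exact cls_ext hb
  · intro h
    refine ⟨h.1, h.2.1, ⊥, inferInstance, cls_trivial hp, ?_⟩
    exact cls_of_surj (QuotientGroup.mk' ⊥) (QuotientGroup.mk'_surjective ⊥) h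

/-! ### Projectors -/

lemma IsProj.maxSub {b : GroupClass} {G : Type} [Group G] {S : Subgroup G}
    (h : IsProj (cls b) S) : IsMaxSub (cls b) S := by
  have h1 := h ⊥
  have hinj : Function.Injective (QuotientGroup.mk' (⊥ : Subgroup G)) := by
    rw [← MonoidHom.ker_eq_bot_iff]
    exact QuotientGroup.ker_mk' ⊥
  refine ⟨?_, ?_⟩
  · let e := S.equivMapOfInjective (QuotientGroup.mk' (⊥ : Subgroup G)) hinj
    exact cls_of_surj e.symm.toMonoidHom e.symm.surjective h1.1
  · intro K hK hcK
    let e := K.equivMapOfInjective (QuotientGroup.mk' (⊥ : Subgroup G)) hinj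
    have h2 := h1.2 (K.map (QuotientGroup.mk' ⊥)) (Subgroup.map_mono hK)
      (cls_of_surj e.toMonoidHom e.surjective hcK)
    exact Subgroup.map_injective hinj h2

/-- In a member of the class the only projector is the whole group. -/
lemma proj_eq_top {b : GroupClass} {G : Type} [Group G] {S : Subgroup G} (hG : cls b G)
    (h : IsProj (cls b) S) : S = ⊤ := by
  have h1 := h.maxSub
  refine (h1.2 ⊤ le_top ?_).symm
  exact cls_of_surj (Subgroup.topEquiv (G := G)).symm.toMonoidHom
    (Subgroup.topEquiv (G := G)).symm.surjective hG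

lemma cls_le_join_left {b : GroupClass} {Y : GroupClass} {G : Type} [Group G] (hG : cls b G) :
    joinC (cls b) Y G := by
  refine ⟨hG.1, hG.2.1, ?_⟩
  intro S hS
  have h1 := proj_eq_top hG (hS (cls b) (Or.inl rfl))
  rw [eq_top_iff]
  calc ⊤ = S (cls b) := h1.symm
    _ ≤ _ := le_iSup₂_of_le (cls b) (Or.inl rfl) le_rfl

end Pool.Agent.H347R3.Sch
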