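import Mathlib
import Pool.Agent.H347R3.SchDefs

/-! The group `3 ^ 4 : (5 : 4)` of order 1620. -/

set_option autoImplicit false

namespace Pool.Agent.H347R3.Sch

/-! ### The Frobenius group of order 20 -/

/-- The Frobenius group of order twenty: pairs `(i, j)` with
`(i, j) (k, l) = (i + 2 ^ j k, j + l)`. -/
@[ext] structure MM where
  i : ZMod 5
  j : ZMod 4
deriving DecidableEq

def mmEquiv : MM ≃ ZMod 5 × ZMod 4 where
  toFun g := (g.i, g.j)
  invFun p := ⟨p.1, p.2⟩
  left_inv _ := rfl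
  right_inv _ := rfl

instance : Fintype MM := Fintype.ofEquiv _ mmEquiv.symm

def tw (j : ZMod 4) : ZMod 5 := 2 ^ j.val

lemma tw_add : ∀ a b : ZMod 4, tw (a + b) = tw a * tw b := by decide +kernel
lemma tw_zero : tw 0 = 1 := by decide +kernel
lemma tw_ne : ∀ a : ZMod 4, a ≠ 0 → 1 - tw a ≠ 0 := by decide +kernel

instance : Mul MM := ⟨fun a b => ⟨a.i + tw a.j * b.i, a.j + b.j⟩⟩
instance : One MM := ⟨⟨0, 0⟩⟩
instance : Inv MM := ⟨fun a => ⟨-(tw (-a.j) * a.i), -a.j⟩⟩

@[simp] lemma MM.mul_i (a b : MM) : (a * b).i = a.i + tw a.j * b.i := rfl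
@[simp] lemma MM.mul_j (a b : MM) : (a * b).j = a.j + b.j := rfl
@[simp] lemma MM.one_i : (1 : MM).i = 0 := rfl
@[simp] lemma MM.one_j : (1 : MM).j = 0 := rfl
@[simp] lemma MM.inv_i (a : MM) : (a⁻¹).i = -(tw (-a.j) * a.i) := rfl
@[simp] lemma MM.inv_j (a : MM) : (a⁻¹).j = -a.j := rfl

instance : Group MM := Group.ofLeftAxioms
  (by
    intro a b c
    ext1
    · simp only [MM.mul_i, MM.mul_j, tw_add]; ring
    · simp only [MM.mul_j, add_assoc])
  (by
    intro a
    ext1
    · simp only [MM.mul_i, MM.one_i, MM.one_j, tw_zero]; ring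
    · simp only [MM.mul_j, MM.one_j, zero_add])
  (by
    intro a
    ext1
    · simp only [MM.mul_i, MM.inv_i, MM.inv_j, MM.one_i, neg_add_cancel]
    · simp only [MM.mul_j, MM.inv_j, MM.one_j, neg_add_cancel])

lemma card_MM : Nat.card MM = 20 := by
  rw [Nat.card_congr mmEquiv, Nat.card_prod, Nat.card_zmod, Nat.card_zmod]

/-- the rotation -/
def rr : MM := ⟨1, 0⟩

/-- the rotations -/
def Rt : Subgroup MM where
  carrier := {m | m.j = 0}
  mul_mem' := by
    intro a b (ha : a.j = 0) (hb : b.j = 0)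
    show a.j + b.j = 0
    rw [ha, hb, add_zero]
  one_mem' := rfl
  inv_mem' := by
    intro a (ha : a.j = 0)
    show -a.j = 0
    rw [ha, neg_zero]

lemma j_add : ∀ a b : ZMod 4, (a = 0 ∨ a = 2) → (b = 0 ∨ b = 2) → (a + b = 0 ∨ a + b = 2) := by
  decide +kernel
lemma j_neg : ∀ a : ZMod 4, (a = 0 ∨ a = 2) → (-a = 0 ∨ -a = 2) := by
  decide +kernel

/-- the dihedral subgroup of order ten -/
def Dd : Subgroup MM where
  carrier := {m | m.j = 0 ∨ m.j = 2}
  mul_mem' := fun {a b} ha hb => j_add a.j b.j ha hb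
  one_mem' := Or.inl rfl
  inv_mem' := fun {a} ha => j_neg a.j ha

lemma mem_Rt {m : MM} : m ∈ Rt ↔ m.j = 0 := Iff.rfl
lemma mem_Dd {m : MM} : m ∈ Dd ↔ (m.j = 0 ∨ m.j = 2) := Iff.rfl

instance : Dd.Normal where
  conj_mem := by
    intro n hn g
    rw [mem_Dd] at hn ⊢
    simp only [MM.mul_j, MM.inv_j]
    have : g.j + n.j + -g.j = n.j := by ring
    rw [this]; exact hn

lemma rot_pow (c : ZMod 5) (n : ℕ) : (⟨c, 0⟩ : MM) ^ n = ⟨n * c, 0⟩ := by
  induction n with
  | zero => ext1 <;> simp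
  | succ n ih =>
    rw [pow_succ, ih]
    ext1
    · simp only [MM.mul_i, tw_zero]; push_cast; ring
    · simp

lemma exists_mul (c : ZMod 5) (hc : c ≠ 0) (d : ZMod 5) : ∃ n : ℕ, (n : ZMod 5) * c = d := by
  have hp : Fact (Nat.Prime 5) := ⟨by norm_num⟩
  refine ⟨(d * c⁻¹).val, ?_⟩
  rw [ZMod.natCast_zmod_val, mul_assoc, inv_mul_cancel₀ hc, mul_one]

/-- a subgroup containing a nontrivial rotation contains all rotations -/
lemma Rt_le {K : Subgroup MM} {c : ZMod 5} (hc : c ≠ 0) (h : (⟨c, 0⟩ : MM) ∈ K) : Rt ≤ K := by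
  intro m hm
  obtain ⟨n, hn⟩ := exists_mul c hc m.i
  have : m = (⟨c, 0⟩ : MM) ^ n := by
    rw [rot_pow, hn]
    ext1
    · rfl
    · exact hm
  rw [this]
  exact K.pow_mem h n

lemma j_exists : ∀ a : ZMod 4, a ≠ 0 → a ≠ 2 → ∀ b : ZMod 4, ∃ n ∈ Finset.range 4,
    b = (n : ZMod 4) * a := by
  decide +kernel

lemma pow_j (m : MM) (n : ℕ) : (m ^ n).j = n * m.j := by
  induction n with
  | zero => simp
  | succ n ih =>
    rw [pow_succ, MM.mul_j, ih]; push_cast; ring

/-- Subgroups containing all rotations. -/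
lemma cases_of_Rt_le {K : Subgroup MM} (h : Rt ≤ K) : K = Rt ∨ K = Dd ∨ K = ⊤ := by
  by_cases h0 : ∀ k ∈ K, k.j = 0
  · left
    exact le_antisymm h0 h
  · right
    by_cases h2 : ∀ k ∈ K, k.j = 0 ∨ k.j = 2
    · left
      push Not at h0
      obtain ⟨k, hk, hk0⟩ := h0
      have hk2 : k.j = 2 := (h2 k hk).resolve_left hk0
      refine le_antisymm h2 ?_
      intro m hm
      rcases hm with hm | hm
      · exact h hm
      · have h3 : m * k⁻¹ ∈ Rt := by
          rw [mem_Rt, MM.mul_j, MM.inv_j, hm, hk2]; decide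
        have h4 : m = m * k⁻¹ * k := by group
        rw [h4]
        exact K.mul_mem (h h3) hk
    · right
      push Not at h2
      obtain ⟨k, hk, hk0, hk2⟩ := h2
      rw [eq_top_iff]
      intro m _
      obtain ⟨n, _, hn⟩ := j_exists k.j hk0 hk2 m.j
      have h3 : m * (k ^ n)⁻¹ ∈ Rt := by
        rw [mem_Rt, MM.mul_j, MM.inv_j, pow_j, hn]; ring
      have h4 : m = m * (k ^ n)⁻¹ * k ^ n := by group
      rw [h4]
      exact K.mul_mem (h h3) (K.pow_mem hk n)

/-- A nontrivial subgroup normalised by the rotation contains all rotations. -/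
lemma Rt_le_of_normalised {K : Subgroup MM} (h : K ≠ ⊥) (hr : ∀ k ∈ K, rr * k * rr⁻¹ ∈ K) :
    Rt ≤ K := by
  obtain ⟨k, hk, hk1⟩ := K.bot_or_exists_ne_one.resolve_left h
  by_cases hj : k.j = 0
  · have hi : k.i ≠ 0 := by
      intro hi
      apply hk1
      ext1
      · exact hi
      · exact hj
    have : k = ⟨k.i, 0⟩ := by
      ext1
      · rfl
      · exact hj
    rw [this] at hk
    exact Rt_le hi hk
  · have h2 : rr * k * rr⁻¹ * k⁻¹ ∈ K := K.mul_mem (hr k hk) (K.inv_mem hk)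
    have h3 : rr * k * rr⁻¹ * k⁻¹ = ⟨1 - tw k.j, 0⟩ := by
      ext1
      · simp only [MM.mul_i, MM.mul_j, MM.inv_i, MM.inv_j, rr, tw_zero]
        have e : tw k.j * tw (-k.j) = 1 := by rw [← tw_add, add_neg_cancel, tw_zero]
        have e2 : tw (0 + k.j + -0) = tw k.j := by congr 1; ring
        have e3 : tw (-(0 : ZMod 4)) = 1 := by rw [neg_zero, tw_zero]
        have e4 : tw (0 + k.j) = tw k.j := by rw [zero_add]
        rw [e2, e3, e4]
        linear_combination (-k.i) * e
      · simp only [MM.mul_j, MM.inv_j, rr]; ring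
    rw [h3] at h2
    exact Rt_le (tw_ne k.j hj) h2

/-! ### The module of order 81 -/

abbrev V4 := ZMod 3 × ZMod 3 × ZMod 3 × ZMod 3

/-- multiplication by a primitive fifth root of unity `z` on the ring `F₃[z]` -/
def zt (v : V4) : V4 :=
  (-v.2.2.2, v.1 - v.2.2.2, v.2.1 - v.2.2.2, v.2.2.1 - v.2.2.2)

/-- the automorphism of the ring `F₃[z]` with `z ↦ z ^ 2` -/
def sg (v : V4) : V4 :=
  (v.1 - v.2.2.1, v.2.2.2 - v.2.2.1, v.2.1 - v.2.2.1, -v.2.2.1)

/-- the action -/
def act (m : MM) (v : V4) : V4 := zt^[m.i.val] (sg^[m.j.val] v)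

lemma zt_it : ∀ i k : ZMod 5, ∀ v : V4, zt^[(i + k).val] v = zt^[i.val] (zt^[k.val] v) := by
  decide +kernel
lemma sg_it : ∀ i k : ZMod 4, ∀ v : V4, sg^[(i + k).val] v = sg^[i.val] (sg^[k.val] v) := by
  decide +kernel
lemma sg_zt : ∀ (j : ZMod 4) (k : ZMod 5) (v : V4),
    sg^[j.val] (zt^[k.val] v) = zt^[(tw j * k).val] (sg^[j.val] v) := by
  decide +kernel

lemma act_mul (m n : MM) (v : V4) : act (m * n) v = act m (act n v) := by
  unfold act
  rw [MM.mul_i, MM.mul_j, zt_it, sg_it, sg_zt]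

lemma zt_add (v w : V4) : zt (v + w) = zt v + zt w := by
  unfold zt
  simp only [Prod.fst_add, Prod.snd_add, Prod.mk_add_mk]
  refine Prod.ext (by ring) (Prod.ext (by ring) (Prod.ext (by ring) (by ring)))

lemma sg_add (v w : V4) : sg (v + w) = sg v + sg w := by
  unfold sg
  simp only [Prod.fst_add, Prod.snd_add, Prod.mk_add_mk]
  refine Prod.ext (by ring) (Prod.ext (by ring) (Prod.ext (by ring) (by ring)))

lemma it_add {f : V4 → V4} (hf : ∀ v w, f (v + w) = f v + f w) (n : ℕ) (v w : V4) :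
    f^[n] (v + w) = f^[n] v + f^[n] w := by
  induction n with
  | zero => rfl
  | succ n ih => rw [Function.iterate_succ_apply', Function.iterate_succ_apply',
      Function.iterate_succ_apply', ih, hf]

lemma act_add (m : MM) (v w : V4) : act m (v + w) = act m v + act m w := by
  unfold act
  rw [it_add sg_add, it_add zt_add]

lemma act_one (v : V4) : act 1 v = v := rfl

lemma act_zero (m : MM) : act m 0 = 0 := by
  have h := act_add m 0 0
  rw [add_zero] at h
  exact left_eq_add.1 h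

lemma act_rr (v : V4) : act rr v = zt v := by
  revert v; decide +kernel

lemma moves (q : MM) (hq : q ≠ 1) : ∃ v : V4, act q v - v ≠ 0 := by
  revert q
  decide +kernel

/-- The element `u` of the ring `F₃[z]` acting on `v`. -/
def comb (u v : V4) : V4 :=
  u.1.val • v + u.2.1.val • zt v + u.2.2.1.val • zt (zt v) + u.2.2.2.val • zt (zt (zt v))

lemma comb_inv : ∀ v : V4, v ≠ 0 → ∃ u : V4, comb u v = (1, 0, 0, 0) := by
  decide +kernel

lemma comb_one : ∀ w : V4, comb w (1, 0, 0, 0) = w := by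
  decide +kernel

/-! ### The group of order 1620 -/

/-- The semidirect product of the module of order 81 with the Frobenius group of order 20. -/
@[ext] structure Gp where
  v : V4
  q : MM

instance : Mul Gp := ⟨fun a b => ⟨a.v + act a.q b.v, a.q * b.q⟩⟩
instance : One Gp := ⟨⟨0, 1⟩⟩
instance : Inv Gp := ⟨fun a => ⟨-(act a.q⁻¹ a.v), a.q⁻¹⟩⟩

@[simp] lemma mul_v (a b : Gp) : (a * b).v = a.v + act a.q b.v := rfl
@[simp] lemma mul_q (a b : Gp) : (a * b).q = a.q * b.q := rfl
@[simp] lemma one_v : (1 : Gp).v = 0 := rfl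
@[simp] lemma one_q : (1 : Gp).q = 1 := rfl
@[simp] lemma inv_v (a : Gp) : (a⁻¹).v = -(act a.q⁻¹ a.v) := rfl
@[simp] lemma inv_q (a : Gp) : (a⁻¹).q = a.q⁻¹ := rfl

instance : Group Gp := Group.ofLeftAxioms
  (by
    intro a b c
    ext1
    · simp only [mul_v, mul_q, act_add, act_mul, add_assoc]
    · simp only [mul_q, mul_assoc])
  (by
    intro a
    ext1
    · simp only [mul_v, one_v, one_q, act_one, zero_add]
    · simp only [mul_q, one_q, one_mul])
  (by
    intro a
    ext1
    · simp only [mul_v, inv_v, inv_q, one_v, neg_add_cancel]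
    · simp only [mul_q, inv_q, one_q, inv_mul_cancel])

/-- forget the group structure -/
def gpEquiv : Gp ≃ V4 × MM where
  toFun g := (g.v, g.q)
  invFun p := ⟨p.1, p.2⟩
  left_inv _ := rfl
  right_inv _ := rfl

instance : Finite Gp := Finite.of_equiv _ gpEquiv.symm

lemma card_Gp : Nat.card Gp = 1620 := by
  rw [Nat.card_congr gpEquiv, Nat.card_prod, card_MM]
  simp only [Nat.card_prod, Nat.card_zmod]

/-- the projection onto the Frobenius group -/
def pr : Gp →* MM where
  toFun g := g.q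
  map_one' := rfl
  map_mul' _ _ := rfl

lemma pr_surj : Function.Surjective pr := fun q => ⟨⟨0, q⟩, rfl⟩

/-- translations -/
def tr (v : V4) : Gp := ⟨v, 1⟩

/-- the inclusion of the module -/
def trHom : Multiplicative V4 →* Gp where
  toFun v := ⟨Multiplicative.toAdd v, 1⟩
  map_one' := rfl
  map_mul' a b := by
    ext1
    · simp only [toAdd_mul, mul_v, act_one]
    · simp only [mul_q, mul_one]

/-- the homomorphism onto the cyclic group of order four -/
def jHom : MM →* Multiplicative (ZMod 4) where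
  toFun m := Multiplicative.ofAdd m.j
  map_one' := rfl
  map_mul' _ _ := rfl

/-- rotations -/
def rotHom : Multiplicative (ZMod 5) →* MM where
  toFun i := ⟨Multiplicative.toAdd i, 0⟩
  map_one' := rfl
  map_mul' _ _ := by
    ext1
    · simp [tw_zero]
    · simp

instance : Group.IsSolvable MM := by
  apply Group.isSolvable_of_ker_le_range rotHom jHom
  intro x hx
  rw [MonoidHom.mem_ker] at hx
  refine ⟨Multiplicative.ofAdd x.i, ?_⟩
  ext1
  · rfl
  · have : Multiplicative.ofAdd x.j = 1 := hx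
    exact (congrArg Multiplicative.toAdd this).symm

instance : Group.IsSolvable Gp := by
  apply Group.isSolvable_of_ker_le_range trHom pr
  intro x hx
  rw [MonoidHom.mem_ker] at hx
  exact ⟨Multiplicative.ofAdd x.v, by
    ext1
    · rfl
    · exact hx.symm⟩

/-- The normal subgroup of order 81. -/
def Vs : Subgroup Gp := pr.ker

instance : Vs.Normal := by unfold Vs; infer_instance

/-- The normal subgroup of index two. -/
def Nn : Subgroup Gp := Dd.comap pr

instance : Nn.Normal := by unfold Nn; infer_instance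

/-- The normal subgroup of index four. -/
def Rf : Subgroup Gp := Rt.comap pr

lemma mem_Vs {g : Gp} : g ∈ Vs ↔ g.q = 1 := Iff.rfl
lemma mem_Nn {g : Gp} : g ∈ Nn ↔ (g.q.j = 0 ∨ g.q.j = 2) := Iff.rfl
lemma mem_Rf {g : Gp} : g ∈ Rf ↔ g.q.j = 0 := Iff.rfl

lemma Rf_le_Nn : Rf ≤ Nn := fun _ hg => Or.inl hg

lemma Vs_le_Rf : Vs ≤ Rf := by
  intro g hg
  rw [mem_Rf, mem_Vs.1 hg]; rfl

/-- the rotation as an element of the group -/
def cc : Gp := ⟨0, rr⟩

lemma cc_mem : cc ∈ Rf := rfl

lemma tr_mul (v w : V4) : tr v * tr w = tr (v + w) := by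
  ext1
  · simp [tr, act_one]
  · simp [tr]

lemma tr_pow (v : V4) (n : ℕ) : (tr v) ^ n = tr (n • v) := by
  induction n with
  | zero =>
    ext1
    · simp [tr]
    · simp [tr]
  | succ n ih =>
    rw [pow_succ, ih, tr_mul, succ_nsmul]

lemma conj_cc (v : V4) : cc * tr v * cc⁻¹ = tr (zt v) := by
  ext1
  · simp only [cc, tr, mul_v, mul_q, inv_v]
    rw [act_zero]
    simp only [neg_zero, act_zero, zero_add, add_zero]
    exact act_rr v
  · simp [cc, tr]

/-- the commutator of an element with a translation -/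
lemma comm_tr (n : Gp) (v : V4) : n * (tr v * n⁻¹ * (tr v)⁻¹) = tr (act n.q v - v) := by
  have e1 : act n.q (-act n.q⁻¹ n.v) = - n.v := by
    have h4 : act n.q (-act n.q⁻¹ n.v) + act n.q (act n.q⁻¹ n.v) = 0 := by
      rw [← act_add, neg_add_cancel, act_zero]
    rw [← act_mul, mul_inv_cancel, act_one] at h4
    exact eq_neg_of_add_eq_zero_left h4
  ext1
  · simp only [tr, mul_v, mul_q, inv_v, inv_q, act_one, inv_one, one_mul, act_add, e1]
    rw [← act_mul, mul_inv_cancel, act_one]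
    abel
  · simp [tr]

/-- A subgroup containing a nontrivial translation and normalised by the rotation contains all
translations. -/
lemma Vs_le_of_tr {N : Subgroup Gp} {v : V4} (hv : v ≠ 0) (hvN : tr v ∈ N)
    (hn : ∀ n ∈ N, cc * n * cc⁻¹ ∈ N) : Vs ≤ N := by
  have hz : ∀ w : V4, tr w ∈ N → tr (zt w) ∈ N := by
    intro w hw
    rw [← conj_cc]
    exact hn _ hw
  have hcomb : ∀ u w : V4, tr w ∈ N → tr (comb u w) ∈ N := by
    intro u w hw
    unfold comb
    rw [← tr_mul, ← tr_mul, ← tr_mul, ← tr_pow, ← tr_pow, ← tr_pow, ← tr_pow]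
    have h1 := hz w hw
    have h2 := hz _ h1
    have h3 := hz _ h2
    exact N.mul_mem (N.mul_mem (N.mul_mem (N.pow_mem hw _) (N.pow_mem h1 _)) (N.pow_mem h2 _))
      (N.pow_mem h3 _)
  obtain ⟨u, hu⟩ := comb_inv v hv
  have h1 : tr (1, 0, 0, 0) ∈ N := by
    rw [← hu]; exact hcomb u v hvN
  intro g hg
  have h2 := hcomb g.v _ h1
  rw [comb_one] at h2
  have : g = tr g.v := by
    ext1
    · rfl
    · exact hg
  rw [this]; exact h2

/-- A nontrivial subgroup normalised by `Rf` contains `Vs`. -/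
lemma Vs_le_of_normalised {N : Subgroup Gp} (hN : N ≠ ⊥)
    (hn : ∀ k ∈ Rf, ∀ n ∈ N, k * n * k⁻¹ ∈ N) : Vs ≤ N := by
  -- a nontrivial translation in `N`
  have h1 : ∃ v : V4, v ≠ 0 ∧ tr v ∈ N := by
    obtain ⟨n, hnN, hn1⟩ := N.bot_or_exists_ne_one.resolve_left hN
    by_cases hq : n.q = 1
    · refine ⟨n.v, ?_, ?_⟩
      · intro h0
        apply hn1
        ext1
        · exact h0
        · exact hq
      · have : tr n.v = n := by
          ext1
          · rfl
          · exact hq.symm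
        rw [this]; exact hnN
    · obtain ⟨v, hv⟩ := moves n.q hq
      refine ⟨act n.q v - v, hv, ?_⟩
      rw [← comm_tr]
      apply N.mul_mem hnN
      exact hn (tr v) (Vs_le_Rf rfl) _ (N.inv_mem hnN)
  obtain ⟨v, hv, hvN⟩ := h1
  exact Vs_le_of_tr hv hvN (hn cc cc_mem)

lemma decomp (g : Gp) : g = tr g.v * ⟨0, g.q⟩ := by
  ext1
  · simp [tr, act_zero]
  · simp [tr]

/-- A subgroup containing `Vs` is the preimage of its image. -/
lemma eq_comap {N : Subgroup Gp} (h : Vs ≤ N) : N = (N.map pr).comap pr := by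
  rw [Subgroup.comap_map_eq]
  exact (sup_eq_left.2 h).symm

/-- The possibilities for a nontrivial subgroup normalised by `Rf`. -/
lemma cases_normalised {N : Subgroup Gp} (hN : N ≠ ⊥)
    (hn : ∀ k ∈ Rf, ∀ n ∈ N, k * n * k⁻¹ ∈ N) : N = Vs ∨ N = Rf ∨ N = Nn ∨ N = ⊤ := by
  have hV := Vs_le_of_normalised hN hn
  have h1 := eq_comap hV
  by_cases h0 : N.map pr = ⊥
  · left
    rw [h1, h0]; rfl
  · right
    have h2 : Rt ≤ N.map pr := by
      apply Rt_le_of_normalised h0
      rintro _ ⟨k, hk, rfl⟩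
      exact ⟨cc * k * cc⁻¹, hn cc cc_mem k hk, rfl⟩
    rcases cases_of_Rt_le h2 with h3 | h3 | h3
    · left; rw [h1, h3]; rfl
    · right; left; rw [h1, h3]; rfl
    · right; right; rw [h1, h3]; exact Subgroup.comap_top pr

end Pool.Agent.H347R3.Sch
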