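import Mathlib
import Pool.Agent.H347R3.SchGrp

/-! Two Schunck classes `X`, `Y` with `X ^ 2 = X`, `Y ^ 2 = Y` whose join is not closed under
extensions. -/

set_option autoImplicit false

namespace Pool.Agent.H347R3.Sch

abbrev C3 := Multiplicative (ZMod 3)
abbrev C5 := Multiplicative (ZMod 5)

/-- the boundary of the first class -/
def bX : GroupClass := fun Q _ =>
  Nonempty (Q ≃* C3) ∨ Nonempty (Q ≃* C5) ∨ Nonempty (Q ≃* Dd) ∨ Nonempty (Q ≃* Gp)

/-- the boundary of the second class -/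
def bY : GroupClass := fun Q _ =>
  Nonempty (Q ≃* C3) ∨ Nonempty (Q ≃* C5) ∨ Nonempty (Q ≃* Nn) ∨ Nonempty (Q ≃* Gp)

/-! ### Primitivity -/

lemma isPrim_of_prime {n : ℕ} (hp : n.Prime) : IsPrim (Multiplicative (ZMod n)) := by
  have hp' : Fact (Nat.Prime n) := ⟨hp⟩
  have hs : IsSimpleGroup (Multiplicative (ZMod n)) := by
    apply isSimpleGroup_of_prime_card (p := n)
    simp [Nat.card_eq_fintype_card, ZMod.card]
  exact ⟨⊥, isCoatom_bot, Subgroup.normalCore_eq_self ⊥⟩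

/-- the complement of the module in a subgroup above `Rf` -/
def cpl (L : Subgroup Gp) : Subgroup L where
  carrier := {l | (l : Gp).v = 0}
  mul_mem' := by
    intro a b ha hb
    change (a : Gp).v + act (a : Gp).q (b : Gp).v = 0
    rw [show (a : Gp).v = 0 from ha, show (b : Gp).v = 0 from hb, act_zero, add_zero]
  one_mem' := rfl
  inv_mem' := by
    intro a ha
    change -(act (a : Gp).q⁻¹ (a : Gp).v) = 0
    rw [show (a : Gp).v = 0 from ha, act_zero, neg_zero]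

lemma tr_mem {L : Subgroup Gp} (hL : Rf ≤ L) (v : V4) : tr v ∈ L := hL (Vs_le_Rf rfl)

lemma isCoatom_cpl {L : Subgroup Gp} (hL : Rf ≤ L) : IsCoatom (cpl L) := by
  constructor
  · intro h
    have h1 : (⟨tr (1, 0, 0, 0), tr_mem hL _⟩ : L) ∈ cpl L := by rw [h]; trivial
    have h2 : ((1, 0, 0, 0) : V4) = 0 := h1
    exact absurd h2 (by decide)
  · intro T hT
    obtain ⟨hle, hne⟩ := SetLike.lt_iff_le_and_exists.mp hT
    obtain ⟨l, hlT, hl⟩ := hne
    have hv : (l : Gp).v ≠ 0 := hl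
    have hq : ∀ g : Gp, g ∈ L → ∃ h0 : (⟨0, g.q⟩ : Gp) ∈ L, (⟨⟨0, g.q⟩, h0⟩ : L) ∈ T := by
      intro g hg
      have h1 : (⟨0, g.q⟩ : Gp) = (tr g.v)⁻¹ * g := by
        rw [eq_inv_mul_iff_mul_eq]; exact (decomp g).symm
      have h2 : (⟨0, g.q⟩ : Gp) ∈ L := by
        rw [h1]; exact L.mul_mem (L.inv_mem (tr_mem hL _)) hg
      exact ⟨h2, hle rfl⟩
    have hcc : (⟨cc, hL cc_mem⟩ : L) ∈ T := hle rfl
    obtain ⟨h0, h0T⟩ := hq l l.2
    have htv : (⟨tr (l : Gp).v, tr_mem hL _⟩ : L) ∈ T := by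
      have : (⟨tr (l : Gp).v, tr_mem hL _⟩ : L) = l * (⟨⟨0, (l : Gp).q⟩, h0⟩ : L)⁻¹ := by
        apply Subtype.ext
        change tr (l : Gp).v = (l : Gp) * (⟨0, (l : Gp).q⟩ : Gp)⁻¹
        rw [eq_mul_inv_iff_mul_eq]; exact (decomp _).symm
      rw [this]
      exact T.mul_mem hlT (T.inv_mem h0T)
    have hV : Vs ≤ T.map L.subtype := by
      apply Vs_le_of_tr hv (N := T.map L.subtype) ⟨_, htv, rfl⟩
      rintro _ ⟨n, hn, rfl⟩
      refine ⟨⟨cc, hL cc_mem⟩ * n * (⟨cc, hL cc_mem⟩ : L)⁻¹,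
        T.mul_mem (T.mul_mem hcc hn) (T.inv_mem hcc), ?_⟩
      have e : L.subtype ⟨cc, hL cc_mem⟩ = cc := rfl
      rw [map_mul, map_mul, map_inv, e]
    rw [eq_top_iff]
    rintro g -
    obtain ⟨g0, g0T⟩ := hq g g.2
    obtain ⟨x, hx, hx2⟩ := hV (mem_Vs.2 (rfl : (tr (g : Gp).v).q = 1))
    have : g = x * ⟨⟨0, (g : Gp).q⟩, g0⟩ := by
      apply Subtype.ext
      change (g : Gp) = (x : Gp) * (⟨0, (g : Gp).q⟩ : Gp)
      have hx3 : (x : Gp) = tr (g : Gp).v := hx2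
      rw [hx3]; exact decomp _
    rw [this]
    exact T.mul_mem hx g0T

lemma isPrim_of_ge {L : Subgroup Gp} (hL : Rf ≤ L) : IsPrim L := by
  refine ⟨cpl L, isCoatom_cpl hL, ?_⟩
  by_contra hne
  have h1 : ((cpl L).normalCore.map L.subtype) ≠ ⊥ := by
    intro h
    apply hne
    rw [Subgroup.map_eq_bot_iff_of_injective _ L.subtype_injective] at h
    exact h
  have h2 := Vs_le_of_normalised h1 (by
    rintro k hk _ ⟨n, hn, rfl⟩
    exact ⟨(⟨k, hL hk⟩ : L) * n * (⟨k, hL hk⟩ : L)⁻¹,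
      (inferInstance : (cpl L).normalCore.Normal).conj_mem n hn _, rfl⟩)
  have h3 : tr (1, 0, 0, 0) ∈ (cpl L).normalCore.map L.subtype := h2 rfl
  obtain ⟨n, hn, hn2⟩ := h3
  have h4 : (n : Gp).v = 0 := (cpl L).normalCore_le hn
  have h5 : (n : Gp) = tr (1, 0, 0, 0) := hn2
  rw [h5] at h4
  exact absurd h4 (by decide)

lemma isPrim_Nn : IsPrim Nn := isPrim_of_ge Rf_le_Nn

lemma isPrim_Gp : IsPrim Gp :=
  isPrim_transport Subgroup.topEquiv (isPrim_of_ge (L := ⊤) le_top)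

/-- the complement of the rotations in the dihedral group -/
def cplD : Subgroup Dd where
  carrier := {l | (l : MM).i = 0}
  mul_mem' := by
    intro a b ha hb
    change (a : MM).i + tw (a : MM).j * (b : MM).i = 0
    rw [show (a : MM).i = 0 from ha, show (b : MM).i = 0 from hb, mul_zero, add_zero]
  one_mem' := rfl
  inv_mem' := by
    intro a ha
    change -(tw (-(a : MM).j) * (a : MM).i) = 0
    rw [show (a : MM).i = 0 from ha, mul_zero, neg_zero]

lemma Rt_le_Dd : Rt ≤ Dd := fun _ h => Or.inl h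

lemma rr_mem : rr ∈ Dd := Rt_le_Dd rfl

lemma isPrim_Dd : IsPrim Dd := by
  refine ⟨cplD, ⟨?_, ?_⟩, ?_⟩
  · intro h
    have h1 : (⟨rr, rr_mem⟩ : Dd) ∈ cplD := by rw [h]; trivial
    have h2 : (1 : ZMod 5) = 0 := h1
    exact absurd h2 (by decide)
  · intro T hT
    obtain ⟨hle, hne⟩ := SetLike.lt_iff_le_and_exists.mp hT
    obtain ⟨l, hlT, hl⟩ := hne
    have hi : (l : MM).i ≠ 0 := hl
    have hq : ∀ g : MM, g ∈ Dd → ∃ h0 : (⟨0, g.j⟩ : MM) ∈ Dd, (⟨⟨0, g.j⟩, h0⟩ : Dd) ∈ T := by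
      intro g hg
      exact ⟨hg, hle rfl⟩
    have hdec : ∀ g : MM, g = ⟨g.i, 0⟩ * ⟨0, g.j⟩ := by
      intro g
      ext1
      · simp
      · simp
    obtain ⟨h0, h0T⟩ := hq l l.2
    have h1 : (⟨(l : MM).i, 0⟩ : MM) ∈ T.map Dd.subtype := by
      refine ⟨l * (⟨⟨0, (l : MM).j⟩, h0⟩ : Dd)⁻¹, T.mul_mem hlT (T.inv_mem h0T), ?_⟩
      change (l : MM) * (⟨0, (l : MM).j⟩ : MM)⁻¹ = _
      rw [mul_inv_eq_iff_eq_mul]; exact hdec _
    have h2 := Rt_le hi h1
    rw [eq_top_iff]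
    rintro g -
    obtain ⟨g0, g0T⟩ := hq g g.2
    obtain ⟨x, hx, hx2⟩ := h2 (show (⟨(g : MM).i, 0⟩ : MM) ∈ Rt from rfl)
    have : g = x * ⟨⟨0, (g : MM).j⟩, g0⟩ := by
      apply Subtype.ext
      change (g : MM) = (x : MM) * (⟨0, (g : MM).j⟩ : MM)
      have hx3 : (x : MM) = ⟨(g : MM).i, 0⟩ := hx2
      rw [hx3]; exact hdec _
    rw [this]
    exact T.mul_mem hx g0T
  · by_contra hne
    have h1 : (cplD.normalCore.map Dd.subtype) ≠ ⊥ := by
      intro h
      apply hne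
      rw [Subgroup.map_eq_bot_iff_of_injective _ Dd.subtype_injective] at h
      exact h
    have h2 := Rt_le_of_normalised h1 (by
      rintro _ ⟨n, hn, rfl⟩
      exact ⟨(⟨rr, rr_mem⟩ : Dd) * n * (⟨rr, rr_mem⟩ : Dd)⁻¹,
        (inferInstance : cplD.normalCore.Normal).conj_mem n hn _, rfl⟩)
    have h3 : rr ∈ cplD.normalCore.map Dd.subtype := h2 rfl
    obtain ⟨n, hn, hn2⟩ := h3
    have h4 : (n : MM).i = 0 := cplD.normalCore_le hn
    have h5 : (n : MM) = rr := hn2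
    rw [h5] at h4
    exact absurd h4 (by decide)

lemma bX_prim : ∀ (Q : Type) [Group Q], bX Q → IsPrim Q := by
  rintro Q _ (⟨⟨e⟩⟩ | ⟨⟨e⟩⟩ | ⟨⟨e⟩⟩ | ⟨⟨e⟩⟩)
  · exact isPrim_transport e.symm (isPrim_of_prime (by norm_num))
  · exact isPrim_transport e.symm (isPrim_of_prime (by norm_num))
  · exact isPrim_transport e.symm isPrim_Dd
  · exact isPrim_transport e.symm isPrim_Gp

lemma bY_prim : ∀ (Q : Type) [Group Q], bY Q → IsPrim Q := by
  rintro Q _ (⟨⟨e⟩⟩ | ⟨⟨e⟩⟩ | ⟨⟨e⟩⟩ | ⟨⟨e⟩⟩)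
  · exact isPrim_transport e.symm (isPrim_of_prime (by norm_num))
  · exact isPrim_transport e.symm (isPrim_of_prime (by norm_num))
  · exact isPrim_transport e.symm isPrim_Nn
  · exact isPrim_transport e.symm isPrim_Gp

/-! ### Closure under extensions -/

/-- `K` has an epimorphic image in `b`. -/
def HasQ (b : GroupClass) (K : Type) [Group K] : Prop :=
  ∃ (P : Type) (_ : Group P), b P ∧ ∃ f : K →* P, Function.Surjective f

lemma HasQ.of_surj {b : GroupClass} {K L : Type} [Group K] [Group L] (h : HasQ b L) (f : K →* L)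
    (hf : Function.Surjective f) : HasQ b K := by
  obtain ⟨P, _, hP, g, hg⟩ := h
  exact ⟨P, _, hP, g.comp f, hg.comp hf⟩

/-- Every nontrivial normal subgroup has an epimorphic image in `b`. -/
def NrmQ (b : GroupClass) (B : Type) [Group B] : Prop :=
  ∀ K : Subgroup B, K.Normal → K ≠ ⊥ → HasQ b K

lemma NrmQ.transport {b : GroupClass} {A B : Type} [Group A] [Group B] (e : A ≃* B)
    (h : NrmQ b B) : NrmQ b A := by
  intro K hK hK1
  have h1 : (K.map e.toMonoidHom) ≠ ⊥ := by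
    intro h2
    apply hK1
    exact (Subgroup.map_eq_bot_iff_of_injective _ e.injective).1 h2
  have h2 := h (K.map e.toMonoidHom) (hK.map _ e.surjective) h1
  exact h2.of_surj (e.toMonoidHom.subgroupMap K) (e.toMonoidHom.subgroupMap_surjective K)

lemma nrmQ_prime {b : GroupClass} {n : ℕ} (hp : n.Prime) (hb : b (Multiplicative (ZMod n))) :
    NrmQ b (Multiplicative (ZMod n)) := by
  have hp' : Fact (Nat.Prime n) := ⟨hp⟩
  have hs : IsSimpleGroup (Multiplicative (ZMod n)) := by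
    apply isSimpleGroup_of_prime_card (p := n)
    simp [Nat.card_eq_fintype_card, ZMod.card]
  intro K hK hK1
  have h1 : K = ⊤ := hK.eq_bot_or_eq_top.resolve_left hK1
  subst h1
  exact ⟨_, _, hb, (Subgroup.topEquiv (G := Multiplicative (ZMod n))).toMonoidHom,
    (Subgroup.topEquiv (G := Multiplicative (ZMod n))).surjective⟩

/-- a subgroup all of whose elements are rotations maps onto the cyclic group of order five -/
lemma surj_C5 {A : Type} [Group A] (f : A →* MM) (h : f.range = Rt) :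
    ∃ g : A →* C5, Function.Surjective g := by
  have hj : ∀ a, (f a).j = 0 := by
    intro a
    have : f a ∈ Rt := by rw [← h]; exact ⟨a, rfl⟩
    exact this
  refine ⟨{ toFun := fun a => Multiplicative.ofAdd (f a).i
            map_one' := by rw [map_one]; rfl
            map_mul' := by
              intro a b
              rw [map_mul, MM.mul_i, hj a, tw_zero, one_mul]; rfl }, ?_⟩
  intro z
  have : (⟨Multiplicative.toAdd z, 0⟩ : MM) ∈ f.range := by rw [h]; rfl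
  obtain ⟨a, ha⟩ := this
  refine ⟨a, ?_⟩
  change Multiplicative.ofAdd (f a).i = z
  rw [ha]; rfl

lemma surj_C3 {A : Type} [Group A] (f : A →* Gp) (h : f.range = Vs) :
    ∃ g : A →* C3, Function.Surjective g := by
  have hj : ∀ a, (f a).q = 1 := by
    intro a
    have : f a ∈ Vs := by rw [← h]; exact ⟨a, rfl⟩
    exact this
  refine ⟨{ toFun := fun a => Multiplicative.ofAdd (f a).v.1
            map_one' := by rw [map_one]; rfl
            map_mul' := by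
              intro a b
              rw [map_mul, mul_v, hj a, act_one]; rfl }, ?_⟩
  intro z
  have : tr (Multiplicative.toAdd z, 0, 0, 0) ∈ f.range := by rw [h]; rfl
  obtain ⟨a, ha⟩ := this
  refine ⟨a, ?_⟩
  change Multiplicative.ofAdd (f a).v.1 = z
  rw [ha]; rfl

lemma surj_range {A B : Type} [Group A] [Group B] (f : A →* B) (L : Subgroup B)
    (h : f.range = L) : ∃ g : A →* L, Function.Surjective g := by
  refine ⟨f.codRestrict L (fun a => by rw [← h]; exact ⟨a, rfl⟩), ?_⟩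
  rintro ⟨z, hz⟩
  rw [← h] at hz
  obtain ⟨a, ha⟩ := hz
  exact ⟨a, Subtype.ext ha⟩

lemma range_sub {A : Type} [Group A] (K : Subgroup A) : K.subtype.range = K :=
  Subgroup.range_subtype K

lemma nrmQ_Dd {b : GroupClass} (h5 : b C5) (hD : b Dd) : NrmQ b Dd := by
  intro K hK hK1
  have h1 : (K.map Dd.subtype) ≠ ⊥ := by
    intro h
    rw [Subgroup.map_eq_bot_iff_of_injective _ Dd.subtype_injective] at h
    exact hK1 h
  have h2 := Rt_le_of_normalised h1 (by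
    rintro _ ⟨n, hn, rfl⟩
    exact ⟨(⟨rr, rr_mem⟩ : Dd) * n * (⟨rr, rr_mem⟩ : Dd)⁻¹, hK.conj_mem n hn _, rfl⟩)
  have h3 : (Dd.subtype.comp K.subtype).range = K.map Dd.subtype := by
    rw [MonoidHom.range_comp, range_sub]
  rcases cases_of_Rt_le h2 with h4 | h4 | h4
  · obtain ⟨g, hg⟩ := surj_C5 (Dd.subtype.comp K.subtype) (h3.trans h4)
    exact ⟨_, _, h5, g, hg⟩
  · obtain ⟨g, hg⟩ := surj_range (Dd.subtype.comp K.subtype) Dd (h3.trans h4)
    exact ⟨_, _, hD, g, hg⟩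
  · exfalso
    have h5 : (⟨0, 1⟩ : MM) ∈ K.map Dd.subtype := by rw [h4]; trivial
    obtain ⟨x, _, hx⟩ := h5
    have h6 : (x : MM) ∈ Dd := x.2
    have h7 : (x : MM) = ⟨0, 1⟩ := hx
    rw [h7] at h6
    exact absurd h6 (by rw [mem_Dd]; decide)

/-- the possible images of the normal subgroups above -/
lemma hasQ_of_range {b : GroupClass} (h3 : b C3) (h5 : b C5) (hN : HasQ b Nn) (hG : b Gp)
    {A : Type} [Group A] (f : A →* Gp)
    (h : f.range = Vs ∨ f.range = Rf ∨ f.range = Nn ∨ f.range = ⊤) : HasQ b A := by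
  rcases h with h | h | h | h
  · obtain ⟨g, hg⟩ := surj_C3 f h
    exact ⟨_, _, h3, g, hg⟩
  · have h1 : (pr.comp f).range = Rt := by
      rw [MonoidHom.range_comp, h]
      exact Subgroup.map_comap_eq_self_of_surjective pr_surj Rt
    obtain ⟨g, hg⟩ := surj_C5 (pr.comp f) h1
    exact ⟨_, _, h5, g, hg⟩
  · obtain ⟨g, hg⟩ := surj_range f Nn h
    exact hN.of_surj g hg
  · exact ⟨_, _, hG, f, MonoidHom.range_eq_top.1 h⟩

lemma nrmQ_of_ge {b : GroupClass} (h3 : b C3) (h5 : b C5) (hN : HasQ b Nn) (hG : b Gp)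
    {L : Subgroup Gp} (hL : Rf ≤ L) : NrmQ b L := by
  intro K hK hK1
  have h1 : (K.map L.subtype) ≠ ⊥ := by
    intro h
    rw [Subgroup.map_eq_bot_iff_of_injective _ L.subtype_injective] at h
    exact hK1 h
  have h2 := cases_normalised h1 (by
    rintro k hk _ ⟨n, hn, rfl⟩
    exact ⟨(⟨k, hL hk⟩ : L) * n * (⟨k, hL hk⟩ : L)⁻¹, hK.conj_mem n hn _, rfl⟩)
  have h4 : (L.subtype.comp K.subtype).range = K.map L.subtype := by
    rw [MonoidHom.range_comp, range_sub]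
  rw [← h4] at h2
  exact hasQ_of_range h3 h5 hN hG _ h2

lemma bX3 : bX C3 := Or.inl ⟨MulEquiv.refl _⟩
lemma bX5 : bX C5 := Or.inr (Or.inl ⟨MulEquiv.refl _⟩)
lemma bXD : bX Dd := Or.inr (Or.inr (Or.inl ⟨MulEquiv.refl _⟩))
lemma bXG : bX Gp := Or.inr (Or.inr (Or.inr ⟨MulEquiv.refl _⟩))
lemma bY3 : bY C3 := Or.inl ⟨MulEquiv.refl _⟩
lemma bY5 : bY C5 := Or.inr (Or.inl ⟨MulEquiv.refl _⟩)
lemma bYN : bY Nn := Or.inr (Or.inr (Or.inl ⟨MulEquiv.refl _⟩))
lemma bYG : bY Gp := Or.inr (Or.inr (Or.inr ⟨MulEquiv.refl _⟩))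

/-- the projection of the subgroup of index two onto the dihedral group -/
def prN : Nn →* Dd := (pr.comp Nn.subtype).codRestrict Dd (fun x => x.2)

lemma prN_surj : Function.Surjective prN := by
  rintro ⟨q, hq⟩
  exact ⟨⟨⟨0, q⟩, hq⟩, rfl⟩

lemma hasQ_X_N : HasQ bX Nn := ⟨_, _, bXD, prN, prN_surj⟩
lemma hasQ_Y_N : HasQ bY Nn := ⟨_, _, bYN, MonoidHom.id _, Function.surjective_id⟩

lemma X_nrm : ∀ (Q : Type) [Group Q], bX Q → NrmQ bX Q := by
  rintro Q _ (⟨⟨e⟩⟩ | ⟨⟨e⟩⟩ | ⟨⟨e⟩⟩ | ⟨⟨e⟩⟩)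
  · exact (nrmQ_prime (by norm_num) bX3).transport e
  · exact (nrmQ_prime (by norm_num) bX5).transport e
  · exact (nrmQ_Dd bX5 bXD).transport e
  · exact (nrmQ_of_ge (L := ⊤) bX3 bX5 hasQ_X_N bXG le_top).transport
      (e.trans Subgroup.topEquiv.symm)

lemma Y_nrm : ∀ (Q : Type) [Group Q], bY Q → NrmQ bY Q := by
  rintro Q _ (⟨⟨e⟩⟩ | ⟨⟨e⟩⟩ | ⟨⟨e⟩⟩ | ⟨⟨e⟩⟩)
  · exact (nrmQ_prime (by norm_num) bY3).transport e
  · exact (nrmQ_prime (by norm_num) bY5).transport e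
  · exact (nrmQ_of_ge bY3 bY5 hasQ_Y_N bYG Rf_le_Nn).transport e
  · exact (nrmQ_of_ge (L := ⊤) bY3 bY5 hasQ_Y_N bYG le_top).transport
      (e.trans Subgroup.topEquiv.symm)

lemma X_mem : cls bX ∈ SqFam := cls_mem_SqFam bX_prim X_nrm
lemma Y_mem : cls bY ∈ SqFam := cls_mem_SqFam bY_prim Y_nrm

end Pool.Agent.H347R3.Sch
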