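import Mathlib
import Pool.Agent.H347R3.SchMain

/-! The join of the two classes is not closed under extensions. -/

set_option autoImplicit false

namespace Pool.Agent.H347R3.Sch

/-! ### Cardinalities -/

lemma card_Rt : Nat.card Rt = 5 := by
  have e : Rt ≃ ZMod 5 :=
    { toFun := fun m => (m : MM).i
      invFun := fun i => ⟨⟨i, 0⟩, rfl⟩
      left_inv := by
        rintro ⟨m, hm⟩
        apply Subtype.ext
        ext1
        · rfl
        · exact (mem_Rt.1 hm).symm
      right_inv := fun _ => rfl }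
  rw [Nat.card_congr e, Nat.card_zmod]

lemma card_Dd : Nat.card Dd = 10 := by
  have e : Dd ≃ ZMod 5 × {j : ZMod 4 // j = 0 ∨ j = 2} :=
    { toFun := fun m => ((m : MM).i, ⟨(m : MM).j, m.2⟩)
      invFun := fun p => ⟨⟨p.1, p.2.1⟩, p.2.2⟩
      left_inv := fun _ => rfl
      right_inv := fun _ => rfl }
  rw [Nat.card_congr e, Nat.card_prod, Nat.card_zmod, Nat.card_eq_fintype_card]
  decide +kernel

lemma card_Nn : Nat.card Nn = 810 := by
  have h1 := Subgroup.card_mul_index Nn
  have h2 : Nn.index = Dd.index := Subgroup.index_comap_of_surjective Dd pr_surj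
  have h3 := Subgroup.card_mul_index Dd
  rw [card_Dd, card_MM] at h3
  have h4 : Dd.index = 2 := by omega
  rw [card_Gp, h2, h4] at h1
  omega

instance : Finite Nn := inferInstance

/-! ### Membership of small groups in the classes -/

lemma no_surj_of_dvd {R Q : Type} [Group R] [Group Q] [Finite R] (h : ¬ Nat.card Q ∣ Nat.card R)
    (f : R →* Q) : ¬ Function.Surjective f := by
  intro hf
  exact h (Subgroup.card_dvd_of_surjective f hf)

lemma card_C3 : Nat.card C3 = 3 := by simp [Nat.card_eq_fintype_card]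
lemma card_C5 : Nat.card C5 = 5 := by simp [Nat.card_eq_fintype_card]

lemma X_of {R : Type} [Group R] [Finite R] (hs : Group.IsSolvable R)
    (h3 : ∀ f : R →* C3, ¬ Function.Surjective f) (h5 : ∀ f : R →* C5, ¬ Function.Surjective f)
    (hD : ∀ f : R →* Dd, ¬ Function.Surjective f) (hG : ∀ f : R →* Gp, ¬ Function.Surjective f) :
    cls bX R := by
  refine ⟨inferInstance, hs, ?_⟩
  rintro Q _ (⟨⟨e⟩⟩ | ⟨⟨e⟩⟩ | ⟨⟨e⟩⟩ | ⟨⟨e⟩⟩) f hf
  · exact h3 (e.toMonoidHom.comp f) (e.surjective.comp hf)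
  · exact h5 (e.toMonoidHom.comp f) (e.surjective.comp hf)
  · exact hD (e.toMonoidHom.comp f) (e.surjective.comp hf)
  · exact hG (e.toMonoidHom.comp f) (e.surjective.comp hf)

lemma Y_of {R : Type} [Group R] [Finite R] (hs : Group.IsSolvable R)
    (h3 : ∀ f : R →* C3, ¬ Function.Surjective f) (h5 : ∀ f : R →* C5, ¬ Function.Surjective f)
    (hD : ∀ f : R →* Nn, ¬ Function.Surjective f) (hG : ∀ f : R →* Gp, ¬ Function.Surjective f) :
    cls bY R := by
  refine ⟨inferInstance, hs, ?_⟩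
  rintro Q _ (⟨⟨e⟩⟩ | ⟨⟨e⟩⟩ | ⟨⟨e⟩⟩ | ⟨⟨e⟩⟩) f hf
  · exact h3 (e.toMonoidHom.comp f) (e.surjective.comp hf)
  · exact h5 (e.toMonoidHom.comp f) (e.surjective.comp hf)
  · exact hD (e.toMonoidHom.comp f) (e.surjective.comp hf)
  · exact hG (e.toMonoidHom.comp f) (e.surjective.comp hf)

/-- groups of order at most two -/
lemma X_of_le_two {R : Type} [Group R] [Finite R] (hs : Group.IsSolvable R)
    (h : Nat.card R ≤ 2) : cls bX R := by
  have key : ∀ (Q : Type) [Group Q], 3 ≤ Nat.card Q → ∀ f : R →* Q, ¬ Function.Surjective f := by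
    intro Q _ hQ f hf
    have := Nat.card_le_card_of_surjective f hf
    omega
  apply X_of hs
  · exact key _ (by rw [card_C3])
  · exact key _ (by rw [card_C5]; norm_num)
  · exact key _ (by rw [card_Dd]; norm_num)
  · exact key _ (by rw [card_Gp]; norm_num)

lemma C5_sq : ∀ z : C5, z ^ 4 = 1 → z = 1 := by decide +kernel

/-- homomorphisms from the Frobenius group of order 20 to the cyclic group of order 5 are
trivial -/
lemma MM_C5 (f : MM →* C5) : ¬ Function.Surjective f := by
  intro hf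
  have h1 : ∀ m : MM, m.j = 1 → f m = 1 := by
    intro m hm
    apply C5_sq
    rw [← map_pow]
    have : m ^ 4 = 1 := by
      have h2 : ∀ i : ZMod 5, (⟨i, 1⟩ : MM) ^ 4 = 1 := by decide +kernel
      have h3 : m = ⟨m.i, 1⟩ := by
        ext1
        · rfl
        · exact hm
      rw [h3]; exact h2 _
    rw [this, map_one]
  have h2 : ∀ m : MM, f m = 1 := by
    intro m
    have hs : f (⟨0, 1⟩ : MM) = 1 := h1 _ rfl
    have h4 : ∀ n : ℕ, f ((⟨0, 1⟩ : MM) ^ n) = 1 := fun n => by rw [map_pow, hs, one_pow]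
    have h3 : ∀ m : MM, m.j = 0 → f m = 1 := by
      intro m hm
      have e : f (m * ⟨0, 1⟩) = 1 := h1 _ (by rw [MM.mul_j, hm]; decide)
      rw [map_mul, hs, mul_one] at e
      exact e
    have h5 : m * ((⟨0, 1⟩ : MM) ^ m.j.val)⁻¹ ∈ Rt := by
      rw [mem_Rt, MM.mul_j, MM.inv_j, pow_j]
      simp
    have h6 := h3 _ h5
    rw [map_mul, map_inv, h4, inv_one, mul_one] at h6
    exact h6
  obtain ⟨m, hm⟩ := hf (Multiplicative.ofAdd 1)
  rw [h2 m] at hm
  exact absurd hm (by decide)

lemma MM_Dd (f : MM →* Dd) : ¬ Function.Surjective f := by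
  intro hf
  have h1 := Subgroup.card_mul_index f.ker
  rw [Subgroup.index_ker, MonoidHom.range_eq_top.2 hf, Subgroup.card_top, card_Dd, card_MM] at h1
  have h2 : Nat.card f.ker = 2 := by omega
  have h3 : f.ker ≠ ⊥ := by
    intro h
    rw [h, Subgroup.card_bot] at h2
    omega
  have h4 := Rt_le_of_normalised h3 (fun k hk => f.normal_ker.conj_mem k hk rr)
  have h5 := Subgroup.card_dvd_of_le h4
  rw [card_Rt, h2] at h5
  omega

lemma X_MM : cls bX MM := by
  apply X_of inferInstance
  · exact no_surj_of_dvd (by rw [card_C3, card_MM]; norm_num)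
  · exact MM_C5
  · exact MM_Dd
  · exact no_surj_of_dvd (by rw [card_Gp, card_MM]; norm_num)

lemma Y_MM : cls bY MM := by
  apply Y_of inferInstance
  · exact no_surj_of_dvd (by rw [card_C3, card_MM]; norm_num)
  · exact MM_C5
  · exact no_surj_of_dvd (by rw [card_Nn, card_MM]; norm_num)
  · exact no_surj_of_dvd (by rw [card_Gp, card_MM]; norm_num)

/-- homomorphisms from the dihedral group of order 10 to the cyclic group of order 5 are
trivial -/
lemma Dd_C5 (f : Dd →* C5) : ¬ Function.Surjective f := by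
  intro hf
  have h1 : ∀ m : Dd, (m : MM).j = 2 → f m = 1 := by
    intro m hm
    apply C5_sq
    rw [← map_pow]
    have : m ^ 4 = 1 := by
      have h2 : ∀ i : ZMod 5, (⟨i, 2⟩ : MM) ^ 4 = 1 := by decide +kernel
      have h3 : (m : MM) = ⟨(m : MM).i, 2⟩ := by
        ext1
        · rfl
        · exact hm
      apply Subtype.ext
      rw [SubmonoidClass.coe_pow, h3]; exact h2 _
    rw [this, map_one]
  have h2 : ∀ m : Dd, f m = 1 := by
    intro m
    have ht : (⟨0, 2⟩ : MM) ∈ Dd := Or.inr rfl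
    have hs : f ⟨(⟨0, 2⟩ : MM), ht⟩ = 1 := h1 _ rfl
    rcases mem_Dd.1 m.2 with hm | hm
    · have e : f (m * ⟨(⟨0, 2⟩ : MM), ht⟩) = 1 := by
        apply h1
        change (m : MM).j + 2 = 2
        rw [hm, zero_add]
      rw [map_mul, hs, mul_one] at e
      exact e
    · exact h1 m hm
  obtain ⟨m, hm⟩ := hf (Multiplicative.ofAdd 1)
  rw [h2 m] at hm
  exact absurd hm (by decide)

lemma Y_Dd : cls bY Dd := by
  apply Y_of inferInstance
  · exact no_surj_of_dvd (by rw [card_C3, card_Dd]; norm_num)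
  · exact Dd_C5
  · exact no_surj_of_dvd (by rw [card_Nn, card_Dd]; norm_num)
  · exact no_surj_of_dvd (by rw [card_Gp, card_Dd]; norm_num)

/-! ### The complement of order 20 is a projector for both classes -/

/-- the complement of order 20 -/
def M0 : Subgroup Gp where
  carrier := {g | g.v = 0}
  mul_mem' := by
    intro a b ha hb
    change a.v + act a.q b.v = 0
    rw [show a.v = 0 from ha, show b.v = 0 from hb, act_zero, add_zero]
  one_mem' := rfl
  inv_mem' := by
    intro a ha
    change -(act a.q⁻¹ a.v) = 0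
    rw [show a.v = 0 from ha, act_zero, neg_zero]

lemma M0_coatom : IsCoatom M0 := by
  have h1 := isCoatom_cpl (L := ⊤) le_top
  have h2 := (OrderIso.isCoatom_iff (Subgroup.topEquiv (G := Gp)).mapSubgroup (cpl ⊤)).mpr h1
  have h3 : (Subgroup.topEquiv (G := Gp)).mapSubgroup (cpl ⊤) = M0 := by
    ext x
    constructor
    · rintro ⟨y, hy, rfl⟩
      exact hy
    · intro hx
      exact ⟨⟨x, trivial⟩, hx, rfl⟩
  rw [h3] at h2
  exact h2

/-- the isomorphism of the complement with the Frobenius group -/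
def M0hom : MM →* M0 where
  toFun q := ⟨⟨0, q⟩, rfl⟩
  map_one' := rfl
  map_mul' a b := by
    apply Subtype.ext
    ext1
    · change (0 : V4) = 0 + act a 0
      rw [act_zero, add_zero]
    · rfl

lemma M0hom_surj : Function.Surjective M0hom := by
  rintro ⟨⟨v, q⟩, hv⟩
  refine ⟨q, ?_⟩
  apply Subtype.ext
  ext1
  · exact hv.symm
  · rfl

lemma cls_M0 {b : GroupClass} (h : cls b MM) : cls b M0 := cls_of_surj M0hom M0hom_surj h

lemma proj_M0 {b : GroupClass} (h : cls b MM) (hG : b Gp) : IsProj (cls b) M0 := by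
  intro N hN
  by_cases h0 : N = ⊥
  · subst h0
    have hinj : Function.Injective (QuotientGroup.mk' (⊥ : Subgroup Gp)) := by
      rw [← MonoidHom.ker_eq_bot_iff]
      exact QuotientGroup.ker_mk' ⊥
    refine ⟨cls_of_surj ((QuotientGroup.mk' (⊥ : Subgroup Gp)).subgroupMap M0)
      (MonoidHom.subgroupMap_surjective _ _) (cls_M0 h), ?_⟩
    intro K hK hcK
    have h1 : M0 ≤ K.comap (QuotientGroup.mk' (⊥ : Subgroup Gp)) := Subgroup.map_le_iff_le_comap.1 hK
    have h2 : K = (K.comap (QuotientGroup.mk' (⊥ : Subgroup Gp))).map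
        (QuotientGroup.mk' (⊥ : Subgroup Gp)) :=
      (Subgroup.map_comap_eq_self_of_surjective (QuotientGroup.mk'_surjective _) K).symm
    rcases M0_coatom.le_iff.1 h1 with h3 | h3
    · exfalso
      have h4 : K = ⊤ := by
        rw [h2, h3, ← MonoidHom.range_eq_map, MonoidHom.range_eq_top]
        exact QuotientGroup.mk'_surjective _
      subst h4
      refine hcK.2.2 Gp hG ((QuotientGroup.quotientBot (G := Gp)).toMonoidHom.comp
        (Subgroup.topEquiv (G := Gp ⧸ (⊥ : Subgroup Gp))).toMonoidHom) ?_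
      exact (QuotientGroup.quotientBot (G := Gp)).surjective.comp
        (Subgroup.topEquiv (G := Gp ⧸ (⊥ : Subgroup Gp))).surjective
    · rw [h2, h3]
  · have hV : Vs ≤ N := Vs_le_of_normalised h0 (fun k _ n hn => hN.conj_mem n hn k)
    have htop : M0.map (QuotientGroup.mk' N) = ⊤ := by
      rw [eq_top_iff]
      intro x _
      obtain ⟨g, rfl⟩ := QuotientGroup.mk'_surjective N x
      refine ⟨⟨0, g.q⟩, rfl, ?_⟩
      conv_rhs => rw [decomp g, map_mul]
      have : QuotientGroup.mk' N (tr g.v) = 1 :=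
        (QuotientGroup.eq_one_iff _).2 (hV (mem_Vs.2 (rfl : (tr g.v).q = 1)))
      rw [this, one_mul]
    rw [htop]
    refine ⟨?_, fun K hK _ => top_le_iff.1 hK⟩
    have h1 : M0.map (QuotientGroup.mk' N) = ⊤ := htop
    rw [← h1]
    exact cls_of_surj ((QuotientGroup.mk' N).subgroupMap M0)
      (MonoidHom.subgroupMap_surjective _ _) (cls_M0 h)

lemma not_join_Gp : ¬ joinC (cls bX) (cls bY) Gp := by
  rintro ⟨_, _, h⟩
  have h1 := h (fun _ => M0) (by
    rintro Y (rfl | hY)
    · exact proj_M0 X_MM bXG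
    · have hY' : Y = cls bY := hY
      subst hY'
      exact proj_M0 Y_MM bYG)
  apply M0_coatom.1
  rw [eq_top_iff, ← h1]
  exact iSup₂_le (fun _ _ => le_rfl)

lemma join_quot : joinC (cls bX) (cls bY) (Gp ⧸ Nn) := by
  apply cls_le_join_left
  apply X_of_le_two inferInstance
  have h2 : Nn.index = Dd.index := Subgroup.index_comap_of_surjective Dd pr_surj
  have h3 := Subgroup.card_mul_index Dd
  rw [card_Dd, card_MM] at h3
  change Nn.index ≤ 2
  rw [h2]
  omega

/-! ### A group of order six -/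

section six

variable {L : Type} [Group L] {w s : L}

/-- the subgroup generated by an element `w` of order three and an involution `s` inverting it -/
def six (h3 : w * w * w = 1) (h2 : s * s = 1) (hc : s * w = w * w * s) : Subgroup L where
  carrier := {g | g = 1 ∨ g = w ∨ g = w * w ∨ g = s ∨ g = w * s ∨ g = w * w * s}
  mul_mem' := by
    have r1 : ∀ x : L, w * (w * (w * x)) = x := by
      intro x
      rw [← mul_assoc, ← mul_assoc, h3, one_mul]
    have r3 : ∀ x : L, s * (w * x) = w * (w * (s * x)) := by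
      intro x
      rw [← mul_assoc, hc, mul_assoc, mul_assoc]
    have r4 : w * (w * w) = 1 := by rw [← mul_assoc]; exact h3
    have r5 : s * w = w * (w * s) := by rw [hc, mul_assoc]
    rintro a b (rfl | rfl | rfl | rfl | rfl | rfl) (rfl | rfl | rfl | rfl | rfl | rfl) <;>
      simp [mul_assoc, r1, r3, r4, r5, h2]
  one_mem' := Or.inl rfl
  inv_mem' := by
    have r4 : w⁻¹ = w * w := by
      rw [inv_eq_iff_mul_eq_one, ← mul_assoc]; exact h3
    have r5 : s⁻¹ = s := by
      rw [inv_eq_iff_mul_eq_one]; exact h2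
    have r6 : (w * w)⁻¹ = w := by rw [← r4, inv_inv]
    have r7 : (w * s)⁻¹ = w * s := by
      rw [mul_inv_rev, r4, r5, ← mul_assoc, hc, mul_assoc (w * w), hc]
      calc w * w * (w * w * s) = (w * w * w) * (w * s) := by simp only [mul_assoc]
        _ = w * s := by rw [h3, one_mul]
    have r8 : (w * w * s)⁻¹ = w * w * s := by
      rw [mul_inv_rev, r6, r5, hc]
    rintro a (rfl | rfl | rfl | rfl | rfl | rfl)
    · left; exact inv_one
    · right; right; left; exact r4
    · right; left; exact r6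
    · right; right; right; left; exact r5
    · right; right; right; right; left; exact r7
    · right; right; right; right; right; exact r8

lemma card_six (h3 : w * w * w = 1) (h2 : s * s = 1) (hc : s * w = w * w * s) :
    Nat.card (six h3 h2 hc) ≤ 6 := by
  classical
  have h1 : ((six h3 h2 hc : Subgroup L) : Set L) ⊆
      (({1, w, w * w, s, w * s, w * w * s} : Finset L) : Set L) := by
    rintro g (rfl | rfl | rfl | rfl | rfl | rfl) <;> simp
  have h4 : Nat.card (six h3 h2 hc) ≤ ({1, w, w * w, s, w * s, w * w * s} : Finset L).card := by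
    have := Set.ncard_le_ncard h1 (Finset.finite_toSet _)
    rw [Set.ncard_coe_finset] at this
    exact this
  exact h4.trans Finset.card_le_six

lemma C3_a : ∀ z : C3, z * z = 1 → z = 1 := by decide +kernel
lemma C5_a : ∀ z : C5, z * z = 1 → z = 1 := by decide +kernel
lemma C5_b : ∀ z : C5, z * z * z = 1 → z = 1 := by decide +kernel

lemma X_six [Finite L] [Group.IsSolvable L] (h3 : w * w * w = 1) (h2 : s * s = 1)
    (hc : s * w = w * w * s) : cls bX (six h3 h2 hc) := by
  have hw : w ∈ six h3 h2 hc := Or.inr (Or.inl rfl)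
  have hs : s ∈ six h3 h2 hc := Or.inr (Or.inr (Or.inr (Or.inl rfl)))
  let w' : six h3 h2 hc := ⟨w, hw⟩
  let s' : six h3 h2 hc := ⟨s, hs⟩
  have e3 : w' * w' * w' = 1 := Subtype.ext h3
  have e2 : s' * s' = 1 := Subtype.ext h2
  have ec : s' * w' = w' * w' * s' := Subtype.ext hc
  have key : ∀ (Q : Type) [Group Q] (f : six h3 h2 hc →* Q), f w' = 1 → f s' = 1 →
      ∀ x, f x = 1 := by
    intro Q _ f fw fs x
    have hx : x = 1 ∨ x = w' ∨ x = w' * w' ∨ x = s' ∨ x = w' * s' ∨ x = w' * w' * s' := by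
      rcases x.2 with h | h | h | h | h | h
      · left; exact Subtype.ext h
      · right; left; exact Subtype.ext h
      · right; right; left; exact Subtype.ext h
      · right; right; right; left; exact Subtype.ext h
      · right; right; right; right; left; exact Subtype.ext h
      · right; right; right; right; right; exact Subtype.ext h
    rcases hx with h | h | h | h | h | h <;> rw [h] <;> simp [fw, fs]
  have key2 : ∀ (n : ℕ), 2 ≤ n → ∀ f : six h3 h2 hc →* Multiplicative (ZMod n), f w' = 1 →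
      f s' = 1 → ¬ Function.Surjective f := by
    intro n hn f fw fs hf
    obtain ⟨x, hx⟩ := hf (Multiplicative.ofAdd 1)
    rw [key _ f fw fs x] at hx
    have h1 : (1 : ZMod n) = 0 := (congrArg Multiplicative.toAdd hx).symm
    have hn2 : Fact (1 < n) := ⟨hn⟩
    exact one_ne_zero h1
  have hbig : ∀ (Q : Type) [Group Q], 7 ≤ Nat.card Q → ∀ f : six h3 h2 hc →* Q,
      ¬ Function.Surjective f := by
    intro Q _ hQ f hf
    have h1 := Nat.card_le_card_of_surjective f hf
    have h4 := card_six h3 h2 hc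
    omega
  apply X_of inferInstance
  · intro f
    have fs : f s' = 1 := C3_a _ (by rw [← map_mul, e2, map_one])
    have fw : f w' = 1 := by
      have h1 := congrArg f ec
      rw [map_mul, map_mul, map_mul, fs, one_mul, mul_one] at h1
      exact left_eq_mul.1 h1
    exact key2 3 (by norm_num) f fw fs
  · intro f
    have fs : f s' = 1 := C5_a _ (by rw [← map_mul, e2, map_one])
    have fw : f w' = 1 := C5_b _ (by rw [← map_mul, ← map_mul, e3, map_one])
    exact key2 5 (by norm_num) f fw fs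
  · exact hbig _ (by rw [card_Dd]; norm_num)
  · exact hbig _ (by rw [card_Gp]; norm_num)

end six

/-! ### The normal subgroup of index two lies in the join -/

lemma comm_of_q {a b : Gp} (ha : a.q = 1) (hb : b.q = 1) : a * b = b * a := by
  ext1
  · rw [mul_v, mul_v, ha, hb, act_one, act_one, add_comm]
  · rw [mul_q, mul_q, ha, hb]

lemma conj_tr (s : Gp) (u : V4) : s * tr u = tr (act s.q u) * s := by
  ext1
  · simp only [mul_v, tr, act_one]; rw [add_comm]
  · simp [tr]

lemma three_V4 : ∀ u : V4, u + u + u = 0 := by decide +kernel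
lemma neg_V4 : ∀ u : V4, -u = u + u := by decide +kernel

lemma mem_ker_prN {x : Nn} : x ∈ prN.ker ↔ (x : Gp).q = 1 := by
  rw [MonoidHom.mem_ker, ← Subtype.val_inj]
  exact Iff.rfl

/-- a subgroup of order at most two of `Nn` is not a maximal subgroup in the class -/
lemma not_max {A : Subgroup Nn} (hA : IsMaxSub (cls bX) A) (s : Nn) (hs : (s : Gp).q.j = 2)
    (hs2 : s * s = 1) (hAs : ∀ a ∈ A, a = 1 ∨ a = s) : False := by
  have hq1 : (s : Gp).q ≠ 1 := by
    intro h
    rw [h] at hs
    exact absurd hs (by decide)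
  obtain ⟨v, hv⟩ := moves _ hq1
  set u : V4 := act (s : Gp).q v - v with hu
  have hqq : (s : Gp).q * (s : Gp).q = 1 := congrArg (fun x : Nn => (x : Gp).q) hs2
  have hact : act (s : Gp).q u = -u := by
    have h1 : act (s : Gp).q (u + v) = v := by
      rw [hu, sub_add_cancel, ← act_mul, hqq, act_one]
    rw [act_add] at h1
    have h2 : act (s : Gp).q v = u + v := by rw [hu, sub_add_cancel]
    rw [h2] at h1
    have h3 : act (s : Gp).q u = v - (u + v) := eq_sub_of_add_eq h1
    rw [h3]; abel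
  have hw : tr u ∈ Nn := Rf_le_Nn (Vs_le_Rf (mem_Vs.2 rfl))
  let w : Nn := ⟨tr u, hw⟩
  have h3 : w * w * w = 1 := by
    apply Subtype.ext
    change tr u * tr u * tr u = 1
    rw [tr_mul, tr_mul, three_V4]; rfl
  have hc : s * w = w * w * s := by
    apply Subtype.ext
    change (s : Gp) * tr u = tr u * tr u * (s : Gp)
    rw [conj_tr, hact, neg_V4, tr_mul]
  have hle : A ≤ six h3 hs2 hc := by
    intro a ha
    rcases hAs a ha with h | h
    · exact Or.inl h
    · exact Or.inr (Or.inr (Or.inr (Or.inl h)))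
  have h4 := hA.2 _ hle (X_six h3 hs2 hc)
  have h5 : w ∈ A := by
    rw [← h4]; exact Or.inr (Or.inl rfl)
  rcases hAs w h5 with h | h
  · have h6 : u = 0 := congrArg (fun x : Nn => (x : Gp).v) h
    exact hv h6
  · have h6 : (1 : MM) = (s : Gp).q := congrArg (fun x : Nn => (x : Gp).q) h
    exact hq1 h6.symm

lemma join_Nn : joinC (cls bX) (cls bY) Nn := by
  refine ⟨inferInstance, inferInstance, ?_⟩
  intro S hS
  have hA : IsProj (cls bX) (S (cls bX)) := hS _ (Or.inl rfl)
  have hT : IsProj (cls bY) (S (cls bY)) := hS _ (Or.inr rfl)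
  suffices h : S (cls bX) ⊔ S (cls bY) = ⊤ by
    rw [eq_top_iff, ← h]
    exact sup_le (le_iSup₂_of_le (cls bX) (Or.inl rfl) le_rfl)
      (le_iSup₂_of_le (cls bY) (Or.inr rfl) le_rfl)
  generalize S (cls bX) = A at hA
  generalize S (cls bY) = T at hT
  -- `T` covers the quotient
  have hTs : ∀ x : Nn, ∃ t ∈ T, t⁻¹ * x ∈ prN.ker := by
    have h1 := hT prN.ker
    have h2 : cls bY (⊤ : Subgroup (Nn ⧸ prN.ker)) := by
      let e := QuotientGroup.quotientKerEquivOfSurjective prN prN_surj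
      have h3 : cls bY (Nn ⧸ prN.ker) := cls_of_surj e.symm.toMonoidHom e.symm.surjective Y_Dd
      exact cls_of_surj (Subgroup.topEquiv (G := Nn ⧸ prN.ker)).symm.toMonoidHom
        (Subgroup.topEquiv (G := Nn ⧸ prN.ker)).symm.surjective h3
    have h3 := h1.2 ⊤ le_top h2
    intro x
    have h4 : QuotientGroup.mk' prN.ker x ∈ T.map (QuotientGroup.mk' prN.ker) := by
      rw [← h3]; trivial
    obtain ⟨t, ht, htx⟩ := h4
    exact ⟨t, ht, QuotientGroup.eq.1 htx⟩
  by_contra hne
  -- the intersection with the module is trivial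
  have hbot : (A ⊔ T) ⊓ prN.ker = ⊥ := by
    by_contra hK
    apply hne
    have h1 : (((A ⊔ T) ⊓ prN.ker).map Nn.subtype) ≠ ⊥ := by
      intro h
      rw [Subgroup.map_eq_bot_iff_of_injective _ Nn.subtype_injective] at h
      exact hK h
    have h2 := Vs_le_of_normalised h1 (by
      rintro k hk _ ⟨n, ⟨hn1, hn2⟩, rfl⟩
      obtain ⟨t, ht, htx⟩ := hTs ⟨k, Rf_le_Nn hk⟩
      have e1 : (t⁻¹ * (⟨k, Rf_le_Nn hk⟩ : Nn)) * n = n * (t⁻¹ * (⟨k, Rf_le_Nn hk⟩ : Nn)) := by
        apply Subtype.ext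
        exact comm_of_q (mem_ker_prN.1 htx) (mem_ker_prN.1 hn2)
      have e2 : (⟨k, Rf_le_Nn hk⟩ : Nn) * n * (⟨k, Rf_le_Nn hk⟩ : Nn)⁻¹ = t * n * t⁻¹ := by
        rw [mul_inv_eq_iff_eq_mul]
        calc (⟨k, Rf_le_Nn hk⟩ : Nn) * n = t * ((t⁻¹ * (⟨k, Rf_le_Nn hk⟩ : Nn)) * n) := by group
          _ = t * (n * (t⁻¹ * (⟨k, Rf_le_Nn hk⟩ : Nn))) := by rw [e1]
          _ = _ := by group
      have e3 : t * n * t⁻¹ ∈ (A ⊔ T) ⊓ prN.ker := by
        have ht' : t ∈ A ⊔ T := (le_sup_right : T ≤ A ⊔ T) ht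
        exact ⟨Subgroup.mul_mem _ (Subgroup.mul_mem _ ht' hn1) (Subgroup.inv_mem _ ht'),
          prN.normal_ker.conj_mem n hn2 t⟩
      rw [← e2] at e3
      exact ⟨_, e3, rfl⟩)
    rw [eq_top_iff]
    intro x _
    obtain ⟨t, ht, htx⟩ := hTs x
    have h3 : ((t⁻¹ * x : Nn) : Gp) ∈ Vs := mem_Vs.2 (mem_ker_prN.1 htx)
    obtain ⟨y, ⟨hy, _⟩, hy2⟩ := h2 h3
    have h4 : y = t⁻¹ * x := Subtype.ext hy2
    have h5 : x = t * (t⁻¹ * x) := by group
    rw [h5, ← h4]
    exact Subgroup.mul_mem _ ((le_sup_right : T ≤ A ⊔ T) ht) hy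
  have hAbot : ∀ a ∈ A, (a : Gp).q = 1 → a = 1 := by
    intro a ha hq
    have h1 : a ∈ (A ⊔ T) ⊓ prN.ker := ⟨(le_sup_left : A ≤ A ⊔ T) ha, mem_ker_prN.2 hq⟩
    rw [hbot, Subgroup.mem_bot] at h1
    exact h1
  have hmax := hA.maxSub
  -- `A` contains no rotations
  have hrot : ∀ a ∈ A, (a : Gp).q.j = 0 → a = 1 := by
    intro a ha hj
    by_contra ha1
    have hi : (a : Gp).q.i ≠ 0 := by
      intro hi
      apply ha1
      apply hAbot a ha
      ext1
      · exact hi
      · exact hj
    let f : A →* MM := Dd.subtype.comp (prN.comp A.subtype)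
    have h1 : (⟨(a : Gp).q.i, 0⟩ : MM) ∈ f.range := by
      refine ⟨⟨a, ha⟩, ?_⟩
      change (a : Gp).q = _
      ext1
      · rfl
      · exact hj
    rcases cases_of_Rt_le (Rt_le hi h1) with h2 | h2 | h2
    · obtain ⟨g, hg⟩ := surj_C5 f h2
      exact hmax.1.2.2 C5 bX5 g hg
    · obtain ⟨g, hg⟩ := surj_range f Dd h2
      exact hmax.1.2.2 Dd bXD g hg
    · have h3 : (⟨0, 1⟩ : MM) ∈ f.range := by rw [h2]; trivial
      obtain ⟨x, hx⟩ := h3
      have h4 : f x ∈ Dd := (prN (x : Nn)).2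
      rw [hx, mem_Dd] at h4
      exact absurd h4 (by decide)
  by_cases hA1 : ∀ a ∈ A, a = 1
  · have ht : (⟨0, ⟨0, 2⟩⟩ : Gp) ∈ Nn := Or.inr rfl
    refine not_max hmax ⟨⟨0, ⟨0, 2⟩⟩, ht⟩ rfl ?_ (fun a ha => Or.inl (hA1 a ha))
    apply Subtype.ext
    change (⟨0, ⟨0, 2⟩⟩ : Gp) * ⟨0, ⟨0, 2⟩⟩ = 1
    ext1
    · change (0 : V4) + act ⟨0, 2⟩ 0 = 0
      rw [act_zero, add_zero]
    · change (⟨0, 2⟩ : MM) * ⟨0, 2⟩ = 1
      decide +kernel
  · push Not at hA1
    obtain ⟨a, ha, ha1⟩ := hA1
    have hj : ∀ b ∈ A, b ≠ 1 → (b : Gp).q.j = 2 := by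
      intro b hb hb1
      exact (mem_Nn.1 b.2).resolve_left (fun h => hb1 (hrot b hb h))
    have hprod : ∀ b ∈ A, b ≠ 1 → b * a = 1 := by
      intro b hb hb1
      apply hrot _ (A.mul_mem hb ha)
      change (b : Gp).q.j + (a : Gp).q.j = 0
      rw [hj b hb hb1, hj a ha ha1]; decide
    have haa := hprod a ha ha1
    refine not_max hmax a (hj a ha ha1) haa ?_
    intro b hb
    by_cases hb1 : b = 1
    · exact Or.inl hb1
    · right
      have h1 := hprod b hb hb1
      exact mul_right_cancel (h1.trans haa.symm)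

end Pool.Agent.H347R3.Sch
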